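import Mathlib

set_option autoImplicit false

namespace Pool.Agent.Results.MP_4a987e_co.CliqueWithTail

open Finset Matrix

section General

variable {V : Type} [Fintype V] [DecidableEq V]

omit [Fintype V] [DecidableEq V] in
theorem hermitian (G : SimpleGraph V) [DecidableRel G.Adj] : (G.adjMatrix ℝ).IsHermitian :=
  G.isSymm_adjMatrix (α := ℝ)

/-- The eigenvalues of the adjacency matrix of `G`, with multiplicity. -/
noncomputable def eig (G : SimpleGraph V) [DecidableRel G.Adj] : V → ℝ :=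
  (hermitian G).eigenvalues

/-- The energy of `G`: the sum of the absolute values of the eigenvalues. -/
noncomputable def energy (G : SimpleGraph V) [DecidableRel G.Adj] : ℝ := ∑ i, |eig G i|

/-- The spectral radius of `G`: the largest eigenvalue. -/
noncomputable def lam1 (G : SimpleGraph V) [DecidableRel G.Adj] : ℝ := ⨆ i, eig G i

variable (G : SimpleGraph V) [DecidableRel G.Adj]

/-- The eigenbasis. -/
noncomputable def B (G : SimpleGraph V) [DecidableRel G.Adj] :
    OrthonormalBasis V ℝ (EuclideanSpace ℝ V) := (hermitian G).eigenvectorBasis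

theorem spectral (i k : V) : G.adjMatrix ℝ i k = ∑ j, eig G j * (B G j i * B G j k) := by
  have h := (hermitian G).spectral_theorem
  have h2 := congrFun (congrFun h i) k
  rw [h2, Unitary.conjStarAlgAut_apply, Matrix.mul_apply]
  refine sum_congr rfl fun j _ => ?_
  rw [Matrix.mul_diagonal, star_apply, Matrix.IsHermitian.eigenvectorUnitary_apply,
    Matrix.IsHermitian.eigenvectorUnitary_apply]
  simp only [Function.comp, RCLike.ofReal_real_eq_id, id, star_trivial]
  unfold eig B
  ring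

theorem basis_norm (j : V) : ∑ i, (B G j i) ^ 2 = 1 := by
  have h := (B G).orthonormal.1 j
  have h2 : ‖B G j‖ ^ 2 = 1 := by rw [h]; norm_num
  rw [EuclideanSpace.norm_sq_eq] at h2
  simpa using h2

/-- Duality between the energy and the operator norm. -/
theorem energy_ge (S : V → V → ℝ)
    (hS : ∀ u : V → ℝ, |∑ i, ∑ k, u i * S i k * u k| ≤ ∑ i, u i ^ 2) :
    ∑ i, ∑ k, G.adjMatrix ℝ i k * S i k ≤ energy G := by
  calc ∑ i, ∑ k, G.adjMatrix ℝ i k * S i k
      = ∑ j, eig G j * ∑ i, ∑ k, B G j i * S i k * B G j k := by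
        simp_rw [spectral G, sum_mul, mul_sum]
        rw [sum_congr rfl fun i _ => sum_comm, sum_comm]
        refine sum_congr rfl fun j _ => sum_congr rfl fun i _ => sum_congr rfl fun k _ => ?_
        ring
    _ ≤ ∑ j, |eig G j| := by
        refine sum_le_sum fun j _ => ?_
        have h1 := hS (fun i => B G j i)
        rw [basis_norm] at h1
        calc eig G j * ∑ i, ∑ k, B G j i * S i k * B G j k
            ≤ |eig G j * ∑ i, ∑ k, B G j i * S i k * B G j k| := le_abs_self _
          _ = |eig G j| * |∑ i, ∑ k, B G j i * S i k * B G j k| := abs_mul _ _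
          _ ≤ |eig G j| * 1 := mul_le_mul_of_nonneg_left h1 (abs_nonneg _)
          _ = |eig G j| := mul_one _

/-- The Rayleigh quotient bound. -/
theorem rayleigh (u : V → ℝ) :
    ∑ i, ∑ k, u i * G.adjMatrix ℝ i k * u k ≤ lam1 G * ∑ i, u i ^ 2 := by
  have h1 : ∑ i, ∑ k, u i * G.adjMatrix ℝ i k * u k = ∑ j, eig G j * (∑ i, u i * B G j i) ^ 2 := by
    simp_rw [spectral G, mul_sum, sum_mul]
    rw [sum_congr rfl fun i _ => sum_comm, sum_comm]
    refine sum_congr rfl fun j _ => ?_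
    rw [sq, sum_mul_sum, mul_sum]
    refine sum_congr rfl fun i _ => ?_
    rw [mul_sum]
    refine sum_congr rfl fun k _ => ?_
    ring
  have h2 : ∑ j, (∑ i, u i * B G j i) ^ 2 = ∑ i, u i ^ 2 := by
    have h3 := (B G).sum_sq_norm_inner_right (WithLp.toLp 2 u)
    have h4 : ‖(WithLp.toLp 2 u : EuclideanSpace ℝ V)‖ ^ 2 = ∑ i, u i ^ 2 := by
      rw [EuclideanSpace.norm_sq_eq]
      simp
    rw [h4] at h3
    rw [← h3]
    refine sum_congr rfl fun j _ => ?_
    rw [Real.norm_eq_abs, sq_abs, PiLp.inner_apply]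
    congr 1
  rw [h1, ← h2, mul_sum]
  refine sum_le_sum fun j _ => mul_le_mul_of_nonneg_right ?_ (sq_nonneg _)
  exact le_ciSup (Set.finite_range _).bddAbove j

end General

section Example

/-- Vertices: a 7-clique and a path with `2p` vertices. -/
abbrev W (p : ℕ) : Type := Fin 7 ⊕ (Fin p × Bool)

/-- The adjacency relation: the path is `(0,false),(0,true),(1,false),(1,true),...`, and its first
vertex is joined to the vertex `0` of the clique. -/
def adj (p : ℕ) : W p → W p → Bool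
  | Sum.inl i, Sum.inl j => decide (i ≠ j)
  | Sum.inl i, Sum.inr (k, b) => decide (i = 0 ∧ (k : ℕ) = 0 ∧ b = false)
  | Sum.inr (k, b), Sum.inl i => decide (i = 0 ∧ (k : ℕ) = 0 ∧ b = false)
  | Sum.inr (k, b), Sum.inr (l, c) =>
      decide ((k = l ∧ b ≠ c) ∨ ((l : ℕ) = k + 1 ∧ b = true ∧ c = false) ∨
        ((k : ℕ) = l + 1 ∧ b = false ∧ c = true))

/-- The clique `K_7` with a pendant path of `2p` further vertices. -/
def Gr (p : ℕ) : SimpleGraph (W p) where
  Adj x y := adj p x y = true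
  symm := ⟨by
    rintro (i | ⟨k, b⟩) (j | ⟨l, c⟩) h
    · simp only [adj, decide_eq_true_eq] at h ⊢
      exact Ne.symm h
    · simpa [adj] using h
    · simpa [adj] using h
    · simp only [adj, decide_eq_true_eq] at h ⊢
      rcases h with ⟨h1, h2⟩ | ⟨h1, h2, h3⟩ | ⟨h1, h2, h3⟩
      · exact Or.inl ⟨h1.symm, h2.symm⟩
      · exact Or.inr (Or.inr ⟨h1, h3, h2⟩)
      · exact Or.inr (Or.inl ⟨h1, h3, h2⟩)⟩
  loopless := ⟨by
    rintro (i | ⟨k, b⟩) h
    · simp [adj] at h
    · simp [adj] at h⟩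

instance (p : ℕ) : DecidableRel (Gr p).Adj := fun x y => by unfold Gr; infer_instance

theorem connected (p : ℕ) : (Gr p).Connected := by
  have h0 : ∀ x : W p, (Gr p).Reachable (Sum.inl 0) x := by
    have key : ∀ n : ℕ, ∀ (h : n < p),
        (Gr p).Reachable (Sum.inl 0) (Sum.inr (⟨n, h⟩, false)) ∧
        (Gr p).Reachable (Sum.inl 0) (Sum.inr (⟨n, h⟩, true)) := by
      intro n
      induction n with
      | zero =>
        intro h
        have h1 : (Gr p).Adj (Sum.inl 0) (Sum.inr (⟨0, h⟩, false)) := by simp [Gr, adj]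
        have h2 : (Gr p).Adj (Sum.inr (⟨0, h⟩, false)) (Sum.inr (⟨0, h⟩, true)) := by
          simp [Gr, adj]
        exact ⟨h1.reachable, h1.reachable.trans h2.reachable⟩
      | succ n ih =>
        intro h
        have h1 : (Gr p).Adj (Sum.inr (⟨n, by omega⟩, true)) (Sum.inr (⟨n + 1, h⟩, false)) := by
          simp [Gr, adj]
        have h2 : (Gr p).Adj (Sum.inr (⟨n + 1, h⟩, false)) (Sum.inr (⟨n + 1, h⟩, true)) := by
          simp [Gr, adj]
        have h3 := (ih (by omega)).2.trans h1.reachable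
        exact ⟨h3, h3.trans h2.reachable⟩
    rintro (i | ⟨k, b⟩)
    · by_cases h : i = 0
      · rw [h]
      · have h1 : (Gr p).Adj (Sum.inl 0) (Sum.inl i) := by
          simp [Gr, adj, Ne.symm h]
        exact h1.reachable
    · obtain ⟨k, hk⟩ := k
      cases b
      · exact (key k hk).1
      · exact (key k hk).2
  exact ⟨fun x y => (h0 x).symm.trans (h0 y)⟩

theorem link_sum (q : ℕ) :
    ∑ k : Fin (q + 1), ∑ l : Fin (q + 1), (if (k : ℕ) = l + 1 then (1 : ℝ) else 0) = q := by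
  rw [Fin.sum_univ_succ]
  have h1 : ∑ l : Fin (q + 1), (if ((0 : Fin (q + 1)) : ℕ) = l + 1 then (1 : ℝ) else 0) = 0 := by
    apply sum_eq_zero
    intro l _
    simp
  have h2 : ∀ i : Fin q, ∑ l : Fin (q + 1), (if ((i.succ : Fin (q + 1)) : ℕ) = l + 1 then (1 : ℝ)
      else 0) = 1 := by
    intro i
    rw [sum_eq_single i.castSucc]
    · simp
    · intro l _ hl
      rw [if_neg]
      intro h
      apply hl
      ext
      simp at h ⊢
      omega
    · intro h
      exact absurd (mem_univ _) h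
  rw [h1, sum_congr rfl fun i _ => h2 i]
  simp

theorem A_ll (p : ℕ) (i j : Fin 7) :
    (Gr p).adjMatrix ℝ (Sum.inl i) (Sum.inl j) = if i ≠ j then 1 else 0 := by
  simp [SimpleGraph.adjMatrix_apply, Gr, adj]

theorem A_lr (p : ℕ) (i : Fin 7) (k : Fin p) (b : Bool) :
    (Gr p).adjMatrix ℝ (Sum.inl i) (Sum.inr (k, b)) =
      if i = 0 ∧ (k : ℕ) = 0 ∧ b = false then 1 else 0 := by
  simp [SimpleGraph.adjMatrix_apply, Gr, adj]

theorem A_rl (p : ℕ) (i : Fin 7) (k : Fin p) (b : Bool) :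
    (Gr p).adjMatrix ℝ (Sum.inr (k, b)) (Sum.inl i) =
      if i = 0 ∧ (k : ℕ) = 0 ∧ b = false then 1 else 0 := by
  simp [SimpleGraph.adjMatrix_apply, Gr, adj]

theorem A_rr (p : ℕ) (k l : Fin p) (b c : Bool) :
    (Gr p).adjMatrix ℝ (Sum.inr (k, b)) (Sum.inr (l, c)) =
      if (k = l ∧ b ≠ c) ∨ ((l : ℕ) = k + 1 ∧ b = true ∧ c = false) ∨
        ((k : ℕ) = l + 1 ∧ b = false ∧ c = true) then 1 else 0 := by
  simp [SimpleGraph.adjMatrix_apply, Gr, adj]

theorem adj_sum (q : ℕ) :
    ∑ x : W (q + 1), ∑ y : W (q + 1), (Gr (q + 1)).adjMatrix ℝ x y = 42 + 4 * (q + 1 : ℝ) := by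
  simp only [Fintype.sum_sum_type, Fintype.sum_prod_type, Fintype.sum_bool, A_ll, A_lr, A_rl, A_rr,
    sum_add_distrib]
  have e1 : ∑ i : Fin 7, ∑ j : Fin 7, (if i ≠ j then (1 : ℝ) else 0) = 42 := by
    simp [Fin.sum_univ_succ]
    norm_num
  have e2 : ∑ i : Fin 7, ∑ k : Fin (q + 1),
      (if i = 0 ∧ (k : ℕ) = 0 ∧ False then (1 : ℝ) else 0) = 0 := by simp
  have e3 : ∑ i : Fin 7, ∑ k : Fin (q + 1), (if i = 0 ∧ (k : ℕ) = 0 then (1 : ℝ) else 0) = 1 := by
    rw [sum_eq_single 0, sum_eq_single 0]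
    · simp
    · intro k _ hk
      rw [if_neg]
      rintro ⟨_, h⟩
      exact hk (Fin.ext h)
    · intro h; exact absurd (mem_univ _) h
    · intro i _ hi
      simp [hi]
    · intro h; exact absurd (mem_univ _) h
  have e3' : ∑ k : Fin (q + 1), ∑ i : Fin 7, (if i = 0 ∧ (k : ℕ) = 0 then (1 : ℝ) else 0) = 1 := by
    rw [sum_comm]; exact e3
  have e4 : ∑ k : Fin (q + 1), ∑ l : Fin (q + 1), (if k = l ∨ (l : ℕ) = k + 1 then (1 : ℝ) else 0)
      = (q + 1) + q := by
    have h1 : ∀ k l : Fin (q + 1), (if k = l ∨ (l : ℕ) = k + 1 then (1 : ℝ) else 0)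
        = (if k = l then 1 else 0) + (if (l : ℕ) = k + 1 then 1 else 0) := by
      intro k l
      by_cases h : k = l
      · subst h
        simp
      · simp [h]
    simp_rw [h1, sum_add_distrib]
    congr 1
    · simp
    · rw [sum_comm]; exact link_sum q
  have e5 : ∑ k : Fin (q + 1), ∑ l : Fin (q + 1), (if k = l ∨ (k : ℕ) = l + 1 then (1 : ℝ) else 0)
      = (q + 1) + q := by
    rw [sum_comm]
    rw [← e4]
    refine sum_congr rfl fun k _ => sum_congr rfl fun l _ => ?_
    simp only [eq_comm]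
  simp only [and_false, and_true, ne_eq, not_true_eq_false, not_false_eq_true,
    false_or, or_false, if_false, sum_const_zero, add_zero, zero_add, Bool.true_eq_false,
    Bool.false_eq_true, or_self] at e1 e3 e3' e4 e5 ⊢
  rw [e1, e3, e3', e4, e5]
  ring

/-- The dual matrix: the sign matrix of the clique and the perfect matching of the path. -/
noncomputable def S (p : ℕ) : W p → W p → ℝ
  | Sum.inl i, Sum.inl j => 2 / 7 - if i = j then 1 else 0
  | Sum.inl _, Sum.inr _ => 0
  | Sum.inr _, Sum.inl _ => 0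
  | Sum.inr (k, b), Sum.inr (l, c) => if k = l ∧ b ≠ c then 1 else 0

theorem trace_AS (p : ℕ) :
    ∑ x : W p, ∑ y : W p, (Gr p).adjMatrix ℝ x y * S p x y = 12 + 2 * (p : ℝ) := by
  simp only [Fintype.sum_sum_type, Fintype.sum_prod_type, Fintype.sum_bool, A_ll, A_lr, A_rr,
    S, sum_add_distrib, mul_zero, sum_const_zero, add_zero, zero_add]
  have e1 : ∑ i : Fin 7, ∑ j : Fin 7, (if i ≠ j then (1 : ℝ) else 0) * (2 / 7 - if i = j then 1
      else 0) = 12 := by
    have h1 : ∀ i j : Fin 7, (if i ≠ j then (1 : ℝ) else 0) * (2 / 7 - if i = j then 1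
        else 0) = 2 / 7 - if i = j then 2 / 7 else 0 := by
      intro i j
      by_cases h : i = j
      · simp [h]
      · simp [h]
    simp_rw [h1, sum_sub_distrib]
    simp
    norm_num
  have e2 : ∑ k : Fin p, ∑ l : Fin p, (if k = l ∨ (l : ℕ) = k + 1 then (1 : ℝ) else 0) *
      (if k = l then 1 else 0) = p := by
    have h1 : ∀ k l : Fin p, (if k = l ∨ (l : ℕ) = k + 1 then (1 : ℝ) else 0) *
      (if k = l then 1 else 0) = if k = l then 1 else 0 := by
      intro k l
      by_cases h : k = l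
      · simp [h]
      · simp [h]
    simp_rw [h1]
    simp
  have e3 : ∑ k : Fin p, ∑ l : Fin p, (if k = l ∨ (k : ℕ) = l + 1 then (1 : ℝ) else 0) *
      (if k = l then 1 else 0) = p := by
    have h1 : ∀ k l : Fin p, (if k = l ∨ (k : ℕ) = l + 1 then (1 : ℝ) else 0) *
      (if k = l then 1 else 0) = if k = l then 1 else 0 := by
      intro k l
      by_cases h : k = l
      · simp [h]
      · simp [h]
    simp_rw [h1]
    simp
  simp only [and_false, and_true, ne_eq, not_true_eq_false, not_false_eq_true,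
    false_or, or_false, if_false, sum_const_zero, add_zero, zero_add, Bool.true_eq_false,
    Bool.false_eq_true, or_self, mul_zero] at e1 e2 e3 ⊢
  rw [e1, e2, e3]
  ring

theorem S_bound (p : ℕ) (u : W p → ℝ) :
    |∑ x, ∑ y, u x * S p x y * u y| ≤ ∑ x, u x ^ 2 := by
  have h1 : ∑ x, ∑ y, u x * S p x y * u y =
      (2 / 7 * (∑ i : Fin 7, u (Sum.inl i)) ^ 2 - ∑ i : Fin 7, u (Sum.inl i) ^ 2) +
      ∑ k : Fin p, 2 * (u (Sum.inr (k, true)) * u (Sum.inr (k, false))) := by
    simp only [Fintype.sum_sum_type, Fintype.sum_prod_type, Fintype.sum_bool, S, mul_zero, zero_mul,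
      sum_const_zero, add_zero, zero_add, sum_add_distrib]
    have e1 : ∑ i : Fin 7, ∑ j : Fin 7, u (Sum.inl i) * (2 / 7 - if i = j then 1 else 0) *
        u (Sum.inl j) = 2 / 7 * (∑ i : Fin 7, u (Sum.inl i)) ^ 2
          - ∑ i : Fin 7, u (Sum.inl i) ^ 2 := by
      rw [sq, sum_mul_sum, mul_sum, ← sum_sub_distrib]
      refine sum_congr rfl fun i _ => ?_
      rw [mul_sum]
      have h2 : ∀ j : Fin 7, u (Sum.inl i) * (2 / 7 - if i = j then 1 else 0) * u (Sum.inl j) =
          2 / 7 * (u (Sum.inl i) * u (Sum.inl j)) -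
            if i = j then u (Sum.inl i) * u (Sum.inl j) else 0 := by
        intro j
        by_cases h : i = j
        · simp [h]; ring
        · simp [h]; ring
      simp_rw [h2, sum_sub_distrib]
      simp [sq]
    simp only [and_false, and_true, ne_eq, not_true_eq_false, not_false_eq_true,
      if_false, sum_const_zero, add_zero, zero_add, Bool.true_eq_false,
      Bool.false_eq_true, mul_zero, zero_mul] at e1 ⊢
    rw [e1]
    congr 1
    simp only [mul_ite, mul_one, mul_zero, ite_mul, zero_mul, sum_ite_eq, mem_univ, if_true]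
    rw [← sum_add_distrib]
    refine sum_congr rfl fun k _ => ?_
    ring
  have h2 : ∑ x, u x ^ 2 = ∑ i : Fin 7, u (Sum.inl i) ^ 2 +
      ∑ k : Fin p, (u (Sum.inr (k, true)) ^ 2 + u (Sum.inr (k, false)) ^ 2) := by
    simp only [Fintype.sum_sum_type, Fintype.sum_prod_type, Fintype.sum_bool]
  have h3 : (∑ i : Fin 7, u (Sum.inl i)) ^ 2 ≤ 7 * ∑ i : Fin 7, u (Sum.inl i) ^ 2 := by
    have := sq_sum_le_card_mul_sum_sq (s := (univ : Finset (Fin 7))) (f := fun i => u (Sum.inl i))
    simpa using this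
  have h4 : 0 ≤ (∑ i : Fin 7, u (Sum.inl i)) ^ 2 := sq_nonneg _
  have h5 : ∑ k : Fin p, 2 * (u (Sum.inr (k, true)) * u (Sum.inr (k, false))) ≤
      ∑ k : Fin p, (u (Sum.inr (k, true)) ^ 2 + u (Sum.inr (k, false)) ^ 2) :=
    sum_le_sum fun k _ => by nlinarith [sq_nonneg (u (Sum.inr (k, true)) - u (Sum.inr (k, false)))]
  have h6 : -∑ k : Fin p, (u (Sum.inr (k, true)) ^ 2 + u (Sum.inr (k, false)) ^ 2) ≤
      ∑ k : Fin p, 2 * (u (Sum.inr (k, true)) * u (Sum.inr (k, false))) := by
    rw [← sum_neg_distrib]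
    exact sum_le_sum fun k _ => by
      nlinarith [sq_nonneg (u (Sum.inr (k, true)) + u (Sum.inr (k, false)))]
  rw [h1, h2, abs_le]
  constructor <;> linarith

theorem six_le_lam1 (p : ℕ) : 6 ≤ lam1 (Gr p) := by
  have h := rayleigh (Gr p) (fun x => match x with | Sum.inl _ => 1 | Sum.inr _ => 0)
  simp only [Fintype.sum_sum_type, Fintype.sum_prod_type, Fintype.sum_bool, A_ll, mul_zero,
    zero_mul, sum_const_zero, add_zero, mul_one, one_mul, one_pow] at h
  have e1 : ∑ i : Fin 7, ∑ j : Fin 7, (if i ≠ j then (1 : ℝ) else 0) = 42 := by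
    simp [Fin.sum_univ_succ]
    norm_num
  rw [e1] at h
  norm_num at h
  linarith

theorem two_mul_edges (q : ℕ) :
    2 * ((Gr (q + 1)).edgeFinset.card : ℝ) = 42 + 4 * (q + 1 : ℝ) := by
  rw [← adj_sum q]
  have h1 := (Gr (q + 1)).sum_degrees_eq_twice_card_edges
  have h2 : (∑ v, ((Gr (q + 1)).degree v : ℝ)) = 2 * ((Gr (q + 1)).edgeFinset.card : ℝ) := by
    exact_mod_cast h1
  rw [← h2]
  refine sum_congr rfl fun v _ => ?_
  rw [← SimpleGraph.card_neighborFinset_eq_degree]
  simp only [SimpleGraph.adjMatrix_apply]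
  rw [sum_boole]
  congr 2
  ext w
  simp

/-- For every `p ≥ 15` the clique `K_7` with a pendant path of `2p` vertices has energy larger than
`2 m / √λ₁`. -/
theorem result :
    (∀ p : ℕ, 15 ≤ p → (Gr p).Connected ∧ Fintype.card (W p) = 7 + 2 * p ∧
      (Gr p).edgeFinset.card = 21 + 2 * p ∧
      2 * ((Gr p).edgeFinset.card : ℝ) / Real.sqrt (lam1 (Gr p)) < energy (Gr p)) ∧
    ¬ (∀ (V : Type) [Fintype V] [DecidableEq V] (G : SimpleGraph V) [DecidableRel G.Adj],
      G.Connected → 1 ≤ G.edgeFinset.card →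
        energy G ≤ 2 * (G.edgeFinset.card : ℝ) / Real.sqrt (lam1 G)) := by
  have main : ∀ p : ℕ, 15 ≤ p → (Gr p).Connected ∧ Fintype.card (W p) = 7 + 2 * p ∧
      (Gr p).edgeFinset.card = 21 + 2 * p ∧
      2 * ((Gr p).edgeFinset.card : ℝ) / Real.sqrt (lam1 (Gr p)) < energy (Gr p) := by
    intro p hp
    obtain ⟨q, rfl⟩ : ∃ q, p = q + 1 := ⟨p - 1, by omega⟩
    have h1 := two_mul_edges q
    have h2 := energy_ge (Gr (q + 1)) (S (q + 1)) (S_bound (q + 1))
    rw [trace_AS] at h2
    have h3 := six_le_lam1 (q + 1)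
    refine ⟨connected _, ?_, ?_, ?_⟩
    · simp [W]
      ring
    · have h4 : (((Gr (q + 1)).edgeFinset.card : ℕ) : ℝ) = ((21 + 2 * (q + 1) : ℕ) : ℝ) := by
        push_cast
        linarith
      exact_mod_cast h4
    · rw [h1]
      have hs : (2.449 : ℝ) ≤ Real.sqrt (lam1 (Gr (q + 1))) := by
        apply Real.le_sqrt_of_sq_le
        norm_num
        linarith
      have hs0 : 0 < Real.sqrt (lam1 (Gr (q + 1))) := by linarith
      rw [div_lt_iff₀ hs0]
      have hq : (14 : ℝ) ≤ q := by exact_mod_cast (by omega : 14 ≤ q)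
      push_cast at h2
      have h5 : (12 + 2 * ((q : ℝ) + 1)) * 2.449 ≤
          energy (Gr (q + 1)) * Real.sqrt (lam1 (Gr (q + 1))) :=
        mul_le_mul h2 hs (by norm_num) (by linarith)
      norm_num at h5
      linarith
  refine ⟨main, fun h => ?_⟩
  obtain ⟨h1, h2, h3, h4⟩ := main 15 le_rfl
  have h5 := h (W 15) (Gr 15) h1 (by rw [h3]; norm_num)
  linarith

end Example

end Pool.Agent.Results.MP_4a987e_co.CliqueWithTail
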